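import Pool.Agent.N804.PV.StmE

/-!
# Project PV (helper804): the archimedean part of the explicit formula, PV1a (helper756)
-/

set_option autoImplicit false

open Complex Filter Topology Set MeasureTheory
open Pool.Agent.Y23
open Pool.Agent.N804.PV (hT aT S_PV1a S_PV1d)

namespace Pool.Agent.N756.PV

/-! ### The function with one pole -/

/-- `(w - 1/2) Γ_ℝ(5/2 + w)` -/
noncomputable def GF (w : ℂ) : ℂ := (w - 1 / 2) * Gammaℝ (5 / 2 + w)

/-- its logarithmic derivative -/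
noncomputable def GD (w : ℂ) : ℂ := 1 / (w - 1 / 2) + logDeriv Gammaℝ (5 / 2 + w)

lemma g5_ne {w : ℂ} (h : -5 / 2 < w.re) : Gammaℝ (5 / 2 + w) ≠ 0 := by
  refine Gammaℝ_ne_zero_of_re_pos ?_
  have : (5 / 2 + w : ℂ).re = 5 / 2 + w.re := by simp
  rw [this]; linarith

lemma g5_an {w : ℂ} (h : -5 / 2 < w.re) : AnalyticAt ℂ (fun w : ℂ => Gammaℝ (5 / 2 + w)) w := by
  have h2 : AnalyticAt ℂ (fun w : ℂ => 5 / 2 + w) w := by fun_prop
  exact (gr_an (g5_ne h)).comp_of_eq h2 rfl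

lemma GF_an {w : ℂ} (h : -5 / 2 < w.re) : AnalyticAt ℂ GF w := by
  unfold GF
  exact AnalyticAt.mul (by fun_prop) (g5_an h)

lemma GF_hasDeriv {w : ℂ} (h : -5 / 2 < w.re) :
    HasDerivAt GF (Gammaℝ (5 / 2 + w) + (w - 1 / 2) * deriv Gammaℝ (5 / 2 + w)) w := by
  unfold GF
  have h1 : HasDerivAt (fun w : ℂ => w - 1 / 2) 1 w := (hasDerivAt_id w).sub_const _
  have h2 : HasDerivAt (fun w : ℂ => Gammaℝ (5 / 2 + w)) (deriv Gammaℝ (5 / 2 + w)) w :=
    ((gr_an (g5_ne h)).differentiableAt).hasDerivAt.comp_const_add (5 / 2) w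
  refine (h1.mul h2).congr_deriv ?_
  rw [one_mul]

lemma GD_eq {w : ℂ} (h : -5 / 2 < w.re) (h1 : w ≠ 1 / 2) : deriv GF w / GF w = GD w := by
  rw [(GF_hasDeriv h).deriv]
  unfold GF GD
  rw [logDeriv_apply]
  have h2 := sub_ne_zero.2 h1
  have h3 := g5_ne h
  generalize Gammaℝ (5 / 2 + w) = A at *
  generalize deriv Gammaℝ (5 / 2 + w) = B at *
  generalize (w - 1 / 2 : ℂ) = D at *
  field_simp

lemma GF_order : analyticOrderAt GF (1 / 2) = 1 := by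
  have hr : -5 / 2 < ((1 : ℂ) / 2).re := by norm_num
  have h0 : AnalyticAt ℂ GF (1 / 2) := GF_an hr
  rw [show (1 : ℕ∞) = ((1 : ℕ) : ℕ∞) by rfl, h0.analyticOrderAt_eq_natCast]
  refine ⟨fun w => Gammaℝ (5 / 2 + w), g5_an hr, g5_ne hr, Eventually.of_forall fun z => ?_⟩
  unfold GF
  rw [pow_one, smul_eq_mul]

lemma logDeriv_add_two {s : ℂ} (hs : s ≠ 0) (hg : Gammaℝ s ≠ 0) (hg2 : Gammaℝ (s + 2) ≠ 0) :
    logDeriv Gammaℝ (s + 2) = logDeriv Gammaℝ s + 1 / s := by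
  have hpi : (Real.pi : ℂ) ≠ 0 := ofReal_ne_zero.mpr Real.pi_ne_zero
  have h1 : HasDerivAt (fun z : ℂ => Gammaℝ (z + 2)) (deriv Gammaℝ (s + 2)) s :=
    ((gr_an hg2).differentiableAt).hasDerivAt.comp_add_const s 2
  have h2 : HasDerivAt (fun z : ℂ => Gammaℝ z * z / 2 / Real.pi)
      ((deriv Gammaℝ s * s + Gammaℝ s * 1) / 2 / Real.pi) s :=
    ((((gr_an hg).differentiableAt).hasDerivAt.mul (hasDerivAt_id s)).div_const 2).div_const _
  have h3 : (fun z : ℂ => Gammaℝ (z + 2)) =ᶠ[𝓝 s] fun z : ℂ => Gammaℝ z * z / 2 / Real.pi := by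
    filter_upwards [isOpen_ne.mem_nhds hs] with z hz
    exact Gammaℝ_add_two hz
  have h4 : deriv Gammaℝ (s + 2) = (deriv Gammaℝ s * s + Gammaℝ s * 1) / 2 / Real.pi := by
    rw [← h1.deriv, h3.deriv_eq, h2.deriv]
  rw [logDeriv_apply, logDeriv_apply, h4, Gammaℝ_add_two hs]
  generalize Gammaℝ s = A at *
  generalize deriv Gammaℝ s = B at *
  field_simp

lemma YL_GD {w : ℂ} (h : w ∈ Rg) (hr : -5 / 2 < w.re) : YL w = GD w := by
  obtain ⟨h1, h2, h3⟩ := h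
  have e1 : (1 / 2 + w : ℂ) ≠ 0 := by
    intro h0; exact h2 (by linear_combination h0)
  have e2 : (5 / 2 + w : ℂ) = (1 / 2 + w) + 2 := by ring
  have h4 := g5_ne hr
  rw [e2] at h4
  unfold YL GD
  rw [e2, logDeriv_add_two e1 (gr_ne h3) h4]
  have h5 := four_sq_ne h1 h2
  have h6 := sub_ne_zero.2 h1
  have e3 : 8 * w / (4 * w ^ 2 - 1) = 1 / (w - 1 / 2) + 1 / (1 / 2 + w) := by
    have e4 : (4 * w ^ 2 - 1 : ℂ) = 4 * ((w - 1 / 2) * (1 / 2 + w)) := by ring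
    rw [e4, div_add_div _ _ h6 e1, div_eq_div_iff (mul_ne_zero (by norm_num) (mul_ne_zero h6 e1))
      (mul_ne_zero h6 e1)]
    ring
  rw [e3]
  ring

/-! ### Bounds -/

lemma GD_far : ∃ C : ℝ, 0 < C ∧ ∀ w : ℂ, |w.re| ≤ 1 → 1 ≤ |w.im| → ‖GD w‖ ≤ C * Lg w.im := by
  obtain ⟨C, hC0, hC⟩ := H370.DL.logDeriv_Gammaℝ_bound
  refine ⟨C + 2, by positivity, fun w h1 h2 => ?_⟩
  have hL := one_le_Lg w.im
  unfold GD
  have b1 : ‖1 / (w - 1 / 2)‖ ≤ 1 := by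
    rw [norm_div, norm_one]
    have h3 : 1 ≤ ‖w - 1 / 2‖ := by
      refine h2.trans ?_
      have h4 := Complex.abs_im_le_norm (w - 1 / 2)
      have h5 : (w - 1 / 2 : ℂ).im = w.im := by simp
      rwa [h5] at h4
    exact div_le_one_of_le₀ h3 (norm_nonneg _)
  have him : (5 / 2 + w : ℂ).im = w.im := by simp
  have hre : (5 / 2 + w : ℂ).re = 5 / 2 + w.re := by simp
  rw [abs_le] at h1
  have h3 := hC (5 / 2 + w) (by rw [hre]; linarith) (by rw [hre]; linarith) (by rw [him]; exact h2)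
  rw [him] at h3
  have b2 : ‖logDeriv Gammaℝ (5 / 2 + w)‖ ≤ C + Lg w.im := by
    have e : logDeriv Gammaℝ (5 / 2 + w) = (logDeriv Gammaℝ (5 / 2 + w) - 1 / 2 * Real.log |w.im|) +
        ((1 / 2 * Real.log |w.im| : ℝ) : ℂ) := by push_cast; ring
    rw [e]
    refine (norm_add_le _ _).trans (add_le_add h3 ?_)
    rw [Complex.norm_real, Real.norm_eq_abs, abs_of_nonneg (by
      have := Real.log_nonneg h2
      positivity)]
    have h6 : Real.log |w.im| ≤ Lg w.im := by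
      unfold Lg
      exact Real.log_le_log (by linarith) (by linarith)
    have := Real.log_nonneg h2
    linarith
  refine (norm_add_le _ _).trans ((add_le_add b1 b2).trans ?_)
  nlinarith

lemma GD_cont {x : ℝ} (hx : -5 / 2 < x) (hx1 : x ≠ 1 / 2) : Continuous (fun y : ℝ => GD ⟨x, y⟩) := by
  rw [continuous_iff_continuousAt]
  intro y
  have h1 : ContinuousAt GD (⟨x, y⟩ : ℂ) := by
    unfold GD
    refine ContinuousAt.add ?_ ?_
    · refine ContinuousAt.div (by fun_prop) (by fun_prop) ?_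
      intro h
      have := congrArg Complex.re h
      simp at this
      apply hx1
      linarith
    · have h1 := LG_cont (g5_ne (w := (⟨x, y⟩ : ℂ)) hx)
      exact ContinuousAt.comp (f := fun w : ℂ => 5 / 2 + w) (x := (⟨x, y⟩ : ℂ)) h1 (by fun_prop)
  exact ContinuousAt.comp (f := fun y : ℝ => (⟨x, y⟩ : ℂ)) (x := y) h1 (line_ct x).continuousAt

lemma GD_line {x : ℝ} (hx : |x| ≤ 1) (hx1 : x ≠ 1 / 2) :
    ∃ C : ℝ, 0 < C ∧ ∀ y : ℝ, ‖GD ⟨x, y⟩‖ ≤ C * Lg y := by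
  obtain ⟨C, hC, hb⟩ := GD_far
  have hc := GD_cont (x := x) (by have := (abs_le.1 hx).1; linarith) hx1
  obtain ⟨K, hK⟩ := (isCompact_Icc (a := (-1 : ℝ)) (b := 1)).exists_bound_of_continuousOn
    hc.continuousOn
  refine ⟨max C K, lt_max_of_lt_left hC, fun y => ?_⟩
  have hL := one_le_Lg y
  have hm : 0 ≤ max C K := (lt_max_of_lt_left hC).le
  rcases le_total 1 |y| with h | h
  · refine (hb ⟨x, y⟩ hx h).trans ?_
    exact mul_le_mul_of_nonneg_right (le_max_left _ _) (by linarith)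
  · have h1 := hK y (by rw [mem_Icc, ← abs_le]; exact h)
    have h2 : K ≤ max C K := le_max_right _ _
    nlinarith

lemma Lg_le (y : ℝ) : Lg y ≤ 2 * (1 + |y|) := by
  have h0 := abs_nonneg y
  have := Real.log_le_sub_one_of_pos (by positivity : 0 < 3 + |y|)
  unfold Lg
  linarith

/-! ### Moving the line of integration -/

lemma shift {H : ℂ → ℂ} {M δ : ℝ} (hδ : 0 < δ) (hM : 0 ≤ M) (hh : Dec H M δ) :
    ∫ y : ℝ, GD ⟨1, y⟩ * H ⟨1, y⟩ = 2 * Real.pi * H (1 / 2) + ∫ y : ℝ, GD ⟨-1, y⟩ * H ⟨-1, y⟩ := by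
  set U : ℕ → ℝ := fun n => (n : ℝ) + 1 with hUd
  have hU1 : ∀ n, 1 ≤ U n := fun n => by
    have : (0 : ℝ) ≤ n := Nat.cast_nonneg n
    simp only [hUd]; linarith
  have hU : Tendsto U atTop atTop := tendsto_atTop_add_const_right _ _ tendsto_natCast_atTop_atTop
  have hU' : Tendsto (fun n => -U n) atTop atBot := tendsto_neg_atTop_atBot.comp hU
  obtain ⟨C, hC, hGD⟩ := GD_far
  have hre : ∀ n, ∀ s ∈ Set.Icc (-1 : ℝ) 1 ×ℂ Set.Icc (-U n) (U n), -5 / 2 < s.re := by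
    intro n s hs
    have := hs.1
    rw [mem_preimage] at this
    linarith [this.1]
  have hz : ∀ n, ∀ s ∈ Set.Icc (-1 : ℝ) 1 ×ℂ Set.Icc (-U n) (U n), GF s = 0 → s = 1 / 2 := by
    intro n s hs h0
    unfold GF at h0
    rcases mul_eq_zero.1 h0 with h2 | h2
    · exact sub_eq_zero.1 h2
    · exact absurd h2 (g5_ne (hre n s hs))
  have hmem : ∀ n, (1 / 2 : ℂ) ∈ Set.Ioo (-1 : ℝ) 1 ×ℂ Set.Ioo (-U n) (U n) := by
    intro n
    refine ⟨?_, ?_⟩
    · rw [mem_preimage]; norm_num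
    · rw [mem_preimage]
      have : (1 / 2 : ℂ).im = 0 := by norm_num
      rw [this]
      exact ⟨by linarith [hU1 n], by linarith [hU1 n]⟩
  have hGF0 : GF (1 / 2) = 0 := by
    unfold GF; norm_num
  have hres := fun n => (H370.rect_residue GF H (-1) 1 (-U n) (U n) (by norm_num)
    (by linarith [hU1 n]) (fun s hs => GF_an (hre n s hs)) hh.1
    (fun s hs h0 => by rw [hz n s hs h0]; exact hmem n)).2
  have hset : ∀ n, {s : ℂ | s ∈ Set.Ioo (-1 : ℝ) 1 ×ℂ Set.Ioo (-U n) (U n) ∧ GF s = 0} = {1 / 2} := by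
    intro n
    ext s
    constructor
    · rintro ⟨h1, h2⟩
      exact hz n s ⟨Ioo_subset_Icc_self h1.1, Ioo_subset_Icc_self h1.2⟩ h2
    · intro h
      rw [mem_singleton_iff] at h
      rw [h]
      exact ⟨hmem n, hGF0⟩
  have hmult : H370.mult GF (1 / 2) = 1 := by
    unfold H370.mult analyticOrderNatAt
    rw [GF_order]
    rfl
  have hbot : ∀ n (x : ℝ), x ∈ uIcc (-1 : ℝ) 1 → ∀ V : ℝ, |V| = U n →
      GD ⟨x, V⟩ = deriv GF ⟨x, V⟩ / GF ⟨x, V⟩ := by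
    intro n x hx V hV
    rw [uIcc_of_le (by norm_num)] at hx
    refine (GD_eq (w := ⟨x, V⟩) (by show -5 / 2 < x; linarith [hx.1]) fun h => ?_).symm
    have h2 : V = 0 := by simpa using congrArg Complex.im h
    have := hU1 n
    rw [← hV, h2, abs_zero] at this
    linarith
  have key : ∀ n, (∫ x in (-1 : ℝ)..1, GD ⟨x, -U n⟩ * H ⟨x, -U n⟩) -
      (∫ x in (-1 : ℝ)..1, GD ⟨x, U n⟩ * H ⟨x, U n⟩) +
      I * (∫ y in (-U n)..U n, GD ⟨1, y⟩ * H ⟨1, y⟩) -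
      I * (∫ y in (-U n)..U n, GD ⟨-1, y⟩ * H ⟨-1, y⟩) = 2 * Real.pi * I * H (1 / 2) := by
    intro n
    have h := hres n
    rw [hset n, finsum_mem_singleton, hmult, Nat.cast_one, one_mul] at h
    rw [← h]
    have hUa : |U n| = U n := abs_of_pos (by linarith [hU1 n])
    have e1 : (∫ x in (-1 : ℝ)..1, GD ⟨x, -U n⟩ * H ⟨x, -U n⟩) =
        ∫ x in (-1 : ℝ)..1, deriv GF ⟨x, -U n⟩ / GF ⟨x, -U n⟩ * H ⟨x, -U n⟩ :=
      intervalIntegral.integral_congr fun x hx => by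
        rw [hbot n x hx (-U n) (by rw [abs_neg, hUa])]
    have e2 : (∫ x in (-1 : ℝ)..1, GD ⟨x, U n⟩ * H ⟨x, U n⟩) =
        ∫ x in (-1 : ℝ)..1, deriv GF ⟨x, U n⟩ / GF ⟨x, U n⟩ * H ⟨x, U n⟩ :=
      intervalIntegral.integral_congr fun x hx => by
        rw [hbot n x hx (U n) hUa]
    have e3 : ∀ y : ℝ, GD ⟨1, y⟩ = deriv GF ⟨1, y⟩ / GF ⟨1, y⟩ := fun y =>
      (GD_eq (w := ⟨1, y⟩) (by show (-5 / 2 : ℝ) < 1; norm_num) fun h => by
        have := congrArg Complex.re h; norm_num at this).symm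
    have e4 : ∀ y : ℝ, GD ⟨-1, y⟩ = deriv GF ⟨-1, y⟩ / GF ⟨-1, y⟩ := fun y =>
      (GD_eq (w := ⟨-1, y⟩) (by show (-5 / 2 : ℝ) < -1; norm_num) fun h => by
        have := congrArg Complex.re h; norm_num at this).symm
    rw [e1, e2]
    simp only [e3, e4]
  have hb : ∀ (n : ℕ) (V : ℝ), |V| = U n → ∀ x : ℝ, |x| ≤ 1 →
      ‖GD ⟨x, V⟩‖ ≤ (4 * C) * (1 + U n ^ 2) := by
    intro n V hV x hx
    have h1 := hGD ⟨x, V⟩ hx (by show 1 ≤ |V|; rw [hV]; exact hU1 n)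
    have h2 := Lg_le V
    rw [hV] at h2
    refine h1.trans ?_
    have := hU1 n
    have h3 : Lg (⟨x, V⟩ : ℂ).im ≤ 4 * (1 + U n ^ 2) := by
      show Lg V ≤ _
      nlinarith
    calc C * Lg (⟨x, V⟩ : ℂ).im ≤ C * (4 * (1 + U n ^ 2)) := mul_le_mul_of_nonneg_left h3 hC.le
      _ = _ := by ring
  have hUabs : ∀ n, |U n| = U n := fun n => abs_of_pos (by linarith [hU1 n])
  have h1 := horiz_zero (φ := GD) (V := fun n => -U n) hδ hM (by positivity : 0 ≤ 4 * C) hh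
    (a := -1) (b := 1) le_rfl le_rfl (by norm_num) hU (fun n => abs_neg _)
    (fun n => hb n _ (by rw [abs_neg, hUabs n]))
  have h2 := horiz_zero (φ := GD) (V := fun n => U n) hδ hM (by positivity : 0 ≤ 4 * C) hh
    (a := -1) (b := 1) le_rfl le_rfl (by norm_num) hU (fun n => rfl) (fun n => hb n _ (hUabs n))
  have c1 := GD_cont (x := 1) (by norm_num) (by norm_num)
  have c0 := GD_cont (x := -1) (by norm_num) (by norm_num)
  obtain ⟨C1, hC1, b1⟩ := GD_line (x := 1) (by norm_num) (by norm_num)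
  obtain ⟨C0, hC0, b0⟩ := GD_line (x := -1) (by norm_num) (by norm_num)
  have b1' : ∀ y : ℝ, ‖GD ⟨1, y⟩‖ ≤ (2 * C1) * (1 + |y|) := fun y => by
    have := mul_le_mul_of_nonneg_left (Lg_le y) hC1.le
    linarith [b1 y]
  have b0' : ∀ y : ℝ, ‖GD ⟨-1, y⟩‖ ≤ (2 * C0) * (1 + |y|) := fun y => by
    have := mul_le_mul_of_nonneg_left (Lg_le y) hC0.le
    linarith [b0 y]
  have h3 := intervalIntegral_tendsto_integral (dec_mul_int c1 b1' hδ hh (σ := 1) (by norm_num)) hU' hU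
  have h4 := intervalIntegral_tendsto_integral (dec_mul_int c0 b0' hδ hh (σ := -1) (by norm_num)) hU' hU
  have h5 := ((h1.sub h2).add (h3.const_mul I)).sub (h4.const_mul I)
  have h6 := tendsto_nhds_unique (h5.congr key) tendsto_const_nhds
  rw [sub_zero, zero_add] at h6
  apply mul_left_cancel₀ I_ne_zero
  linear_combination h6

/-! ### The test function on the line on the left -/

lemma aT_bd {T : ℝ} (hT : 2 ≤ T) (t : ℝ) : ‖aT T (1 / 2 + ⟨-1, t⟩)‖ ≤ 8 / (1 + |t|) := by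
  have ht := abs_nonneg t
  have hh : 0 ≤ Real.log (1 + 1 / T) := Real.log_nonneg (by
    have : 0 < 1 / T := by positivity
    linarith)
  set s : ℂ := 1 / 2 + ⟨-1, t⟩ with hs
  have hre : s.re = -1 / 2 := by rw [hs]; simp; norm_num
  have him : s.im = t := by rw [hs]; simp
  have hs0 : s ≠ 0 := by
    intro h
    rw [h] at hre
    norm_num at hre
  have e : aT T s = (Complex.exp ((Real.log (1 + 1 / T) : ℂ) * s) - 1) / s := by
    unfold aT
    have h1 : ∀ v ∈ uIcc (0 : ℝ) (Real.log (1 + 1 / T)),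
        HasDerivAt (fun v : ℝ => Complex.exp ((v : ℂ) * s) / s) (Complex.exp ((v : ℂ) * s)) v := by
      intro v _
      have h2 : HasDerivAt (fun z : ℂ => Complex.exp (z * s) / s) (Complex.exp ((v : ℂ) * s)) (v : ℂ) := by
        have h3 := (((hasDerivAt_id (v : ℂ)).mul_const s).cexp).div_const s
        refine h3.congr_deriv ?_
        simp only [id]
        field_simp
      exact h2.comp_ofReal
    rw [intervalIntegral.integral_eq_sub_of_hasDerivAt h1 (by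
      apply Continuous.intervalIntegrable
      fun_prop)]
    rw [Complex.ofReal_zero, zero_mul, Complex.exp_zero]
    ring
  rw [e, norm_div]
  have b1 : ‖Complex.exp ((Real.log (1 + 1 / T) : ℂ) * s) - 1‖ ≤ 2 := by
    refine (norm_sub_le _ _).trans ?_
    rw [norm_one, Complex.norm_exp, Complex.re_ofReal_mul, hre]
    have : Real.exp (Real.log (1 + 1 / T) * (-1 / 2)) ≤ 1 := by
      rw [Real.exp_le_one_iff]
      nlinarith
    linarith
  have b2 : (1 + |t|) / 4 ≤ ‖s‖ := by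
    have h1 := Complex.abs_re_le_norm s
    have h2 := Complex.abs_im_le_norm s
    rw [hre] at h1
    rw [him] at h2
    rw [abs_of_neg (by norm_num)] at h1
    linarith
  rw [div_le_div_iff₀ (by linarith) (by linarith)]
  calc ‖Complex.exp ((Real.log (1 + 1 / T) : ℂ) * s) - 1‖ * (1 + |t|) ≤ 2 * (1 + |t|) := by gcongr
    _ ≤ 8 * ‖s‖ := by linarith

lemma hT_bd {T : ℝ} (hT2 : 2 ≤ T) {ε : ℝ} (hε1 : ε ≤ 1) (hε0 : 0 < ε) (y t : ℝ) :
    ‖hT T ε y ⟨-1, t⟩‖ ≤ 8 / (1 + |t|) * (Real.exp 1 * Real.exp (-y) * Real.exp (-(ε ^ 2 * t ^ 2 / 2))) := by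
  unfold hT
  rw [norm_mul]
  refine mul_le_mul (aT_bd hT2 t) ?_ (norm_nonneg _) (by positivity)
  rw [Complex.norm_exp, ← Real.exp_add, ← Real.exp_add]
  apply Real.exp_le_exp.2
  have e1 : ((y : ℂ) * (⟨-1, t⟩ : ℂ) + (ε : ℂ) ^ 2 * (⟨-1, t⟩ : ℂ) ^ 2 / 2).re =
      -y + ε ^ 2 * (1 - t ^ 2) / 2 := by
    have e2 : (⟨-1, t⟩ : ℂ) = -1 + t * I := by apply Complex.ext <;> simp
    have e3 : ((y : ℂ) * (⟨-1, t⟩ : ℂ) + (ε : ℂ) ^ 2 * (⟨-1, t⟩ : ℂ) ^ 2 / 2) =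
        ((-y + ε ^ 2 * (1 - t ^ 2) / 2 : ℝ) : ℂ) + ((y * t - ε ^ 2 * t : ℝ) : ℂ) * I := by
      rw [e2]
      push_cast
      have := I_sq
      linear_combination (ε ^ 2 * t ^ 2 / 2 : ℂ) * this
    rw [e3]
    simp only [Complex.add_re, Complex.ofReal_re, Complex.mul_re, Complex.I_re, Complex.ofReal_im,
      Complex.I_im]
    ring
  rw [e1]
  have : ε ^ 2 ≤ 1 := by nlinarith
  nlinarith

/-! ### The real integral -/

lemma maj {ε : ℝ} (hε0 : 0 < ε) (hε1 : ε ≤ 1) {t : ℝ} (ht : 0 ≤ t) :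
    Real.log (3 + t) / (1 + t) * Real.exp (-(ε ^ 2 * t ^ 2 / 2)) ≤
      12 * Real.exp 2 * (1 + Real.log (1 / ε)) *
        (1 + t) ^ (-1 - (1 + Real.log (1 / ε))⁻¹) := by
  have hl : 0 ≤ Real.log (1 / ε) := Real.log_nonneg (by rw [le_div_iff₀ hε0]; linarith)
  set L : ℝ := 1 + Real.log (1 / ε) with hL
  have hL1 : 1 ≤ L := by linarith
  set σ : ℝ := L⁻¹ with hσ
  have hσ0 : 0 < σ := by positivity
  have hσ1 : σ ≤ 1 := inv_le_one_of_one_le₀ hL1
  have hLσ : L * σ = 1 := mul_inv_cancel₀ (by linarith)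
  have h1t : 0 < 1 + t := by linarith
  -- the logarithm
  have a1 : Real.log (3 + t) ≤ 3 * (1 + t) ^ σ * L := by
    have h1 := Real.log_le_rpow_div (by linarith : 0 ≤ 3 + t) hσ0
    have h2 : (3 + t) ^ σ ≤ (3 * (1 + t)) ^ σ := Real.rpow_le_rpow (by linarith) (by linarith) hσ0.le
    have h3 : (3 * (1 + t)) ^ σ = 3 ^ σ * (1 + t) ^ σ := Real.mul_rpow (by norm_num) h1t.le
    have h4 : (3 : ℝ) ^ σ ≤ 3 := by
      calc (3 : ℝ) ^ σ ≤ 3 ^ (1 : ℝ) := Real.rpow_le_rpow_of_exponent_le (by norm_num) hσ1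
        _ = 3 := Real.rpow_one 3
    have h5 : 0 ≤ (1 + t) ^ σ := (Real.rpow_pos_of_pos h1t σ).le
    have h6 : (3 + t) ^ σ / σ = (3 + t) ^ σ * L := by rw [hσ, div_inv_eq_mul]
    rw [h6] at h1
    refine h1.trans ?_
    have h7 : (3 + t) ^ σ ≤ 3 * (1 + t) ^ σ := by
      rw [h3] at h2
      exact h2.trans (mul_le_mul_of_nonneg_right h4 h5)
    exact mul_le_mul_of_nonneg_right h7 (by linarith)
  -- the exponential
  have a2 : Real.exp (-(ε ^ 2 * t ^ 2 / 2)) ≤ 4 * Real.exp 2 * (1 + t) ^ (-(2 * σ)) := by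
    have h1 : (1 + t) ^ (2 * σ) * Real.exp (-(ε ^ 2 * t ^ 2 / 2)) ≤ 4 * Real.exp 2 := by
      have hu : 0 ≤ ε * t := by positivity
      have h2 : 1 + t ≤ ε⁻¹ * (1 + ε * t) := by
        have h3 : ε⁻¹ * (1 + ε * t) = ε⁻¹ + t := by field_simp
        have h4 : 1 ≤ ε⁻¹ := (one_le_inv₀ hε0).2 hε1
        rw [h3]
        linarith
      have h3 : (1 + t) ^ (2 * σ) ≤ (ε⁻¹) ^ (2 * σ) * (1 + ε * t) ^ (2 : ℝ) := by
        calc (1 + t) ^ (2 * σ) ≤ (ε⁻¹ * (1 + ε * t)) ^ (2 * σ) :=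
              Real.rpow_le_rpow h1t.le h2 (by linarith)
          _ = (ε⁻¹) ^ (2 * σ) * (1 + ε * t) ^ (2 * σ) :=
              Real.mul_rpow (by positivity) (by linarith)
          _ ≤ (ε⁻¹) ^ (2 * σ) * (1 + ε * t) ^ (2 : ℝ) := by
              refine mul_le_mul_of_nonneg_left ?_ (Real.rpow_nonneg (by positivity) _)
              exact Real.rpow_le_rpow_of_exponent_le (by linarith) (by linarith)
      have h4 : (ε⁻¹) ^ (2 * σ) ≤ Real.exp 2 := by
        rw [Real.rpow_def_of_pos (by positivity)]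
        apply Real.exp_le_exp.2
        have h5 : Real.log ε⁻¹ = L - 1 := by rw [hL, one_div]; ring
        rw [h5]
        nlinarith
      have h6 : (1 + ε * t) ^ (2 : ℝ) * Real.exp (-(ε ^ 2 * t ^ 2 / 2)) ≤ 4 := by
        have h7 : (1 + ε * t) ^ (2 : ℝ) = (1 + ε * t) ^ 2 := by norm_cast
        rw [h7, Real.exp_neg, ← div_eq_mul_inv, div_le_iff₀ (Real.exp_pos _)]
        have h8 := Real.add_one_le_exp (ε ^ 2 * t ^ 2 / 2)
        nlinarith [sq_nonneg (1 - ε * t)]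
      have h9 : 0 ≤ (1 + ε * t) ^ (2 : ℝ) := Real.rpow_nonneg (by linarith) _
      calc (1 + t) ^ (2 * σ) * Real.exp (-(ε ^ 2 * t ^ 2 / 2)) ≤
            ((ε⁻¹) ^ (2 * σ) * (1 + ε * t) ^ (2 : ℝ)) * Real.exp (-(ε ^ 2 * t ^ 2 / 2)) :=
            mul_le_mul_of_nonneg_right h3 (Real.exp_pos _).le
        _ ≤ (Real.exp 2 * (1 + ε * t) ^ (2 : ℝ)) * Real.exp (-(ε ^ 2 * t ^ 2 / 2)) :=
            mul_le_mul_of_nonneg_right (mul_le_mul_of_nonneg_right h4 h9) (Real.exp_pos _).le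
        _ = Real.exp 2 * ((1 + ε * t) ^ (2 : ℝ) * Real.exp (-(ε ^ 2 * t ^ 2 / 2))) := by ring
        _ ≤ Real.exp 2 * 4 := mul_le_mul_of_nonneg_left h6 (Real.exp_pos _).le
        _ = _ := by ring
    have hp : 0 < (1 + t) ^ (2 * σ) := Real.rpow_pos_of_pos h1t _
    rw [Real.rpow_neg h1t.le, ← div_eq_mul_inv, le_div_iff₀ hp, mul_comm]
    exact h1
  have e1 : (1 + t) ^ (-1 - σ) = (1 + t) ^ σ * (1 + t)⁻¹ * (1 + t) ^ (-(2 * σ)) := by
    rw [← Real.rpow_neg_one, ← Real.rpow_add h1t, ← Real.rpow_add h1t]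
    congr 1
    ring
  rw [e1, div_eq_mul_inv]
  have hi : 0 ≤ (1 + t)⁻¹ := by positivity
  have hp : 0 ≤ (1 + t) ^ σ := (Real.rpow_pos_of_pos h1t _).le
  calc Real.log (3 + t) * (1 + t)⁻¹ * Real.exp (-(ε ^ 2 * t ^ 2 / 2)) ≤
        (3 * (1 + t) ^ σ * L) * (1 + t)⁻¹ * (4 * Real.exp 2 * (1 + t) ^ (-(2 * σ))) := by
        refine mul_le_mul (mul_le_mul_of_nonneg_right a1 hi) a2 (Real.exp_pos _).le (by positivity)
    _ = _ := by ring

lemma tail_int {σ : ℝ} (hσ : 0 < σ) : Integrable (fun t : ℝ => (1 + |t|) ^ (-1 - σ)) ∧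
    ∫ t : ℝ, (1 + |t|) ^ (-1 - σ) = 2 / σ := by
  have hd : ∀ t ∈ Ici (0 : ℝ), HasDerivAt (fun t : ℝ => -((1 + t) ^ (-σ)) / σ) ((1 + t) ^ (-1 - σ)) t := by
    intro t ht
    have h1 : 0 < 1 + t := by
      rw [mem_Ici] at ht
      linarith
    have h2 : HasDerivAt (fun t : ℝ => 1 + t) 1 t := (hasDerivAt_id t).const_add 1
    have h3 := ((h2.rpow_const (p := -σ) (Or.inl h1.ne')).neg).div_const σ
    refine h3.congr_deriv ?_
    rw [one_mul, show -σ - 1 = -1 - σ by ring]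
    field_simp
  have hlim : Tendsto (fun t : ℝ => -((1 + t) ^ (-σ)) / σ) atTop (𝓝 0) := by
    have h1 : Tendsto (fun t : ℝ => (1 + t) ^ (-σ)) atTop (𝓝 0) :=
      (tendsto_rpow_neg_atTop hσ).comp (tendsto_atTop_add_const_left _ 1 tendsto_id)
    have h2 := (h1.neg).div_const σ
    simpa using h2
  have hval : ∫ t in Ioi (0 : ℝ), (1 + t) ^ (-1 - σ) = 1 / σ := by
    rw [integral_Ioi_of_hasDerivAt_of_nonneg' hd (fun t ht => by
      rw [mem_Ioi] at ht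
      exact Real.rpow_nonneg (by linarith) _) hlim]
    simp
    ring
  have hv : ∫ t : ℝ, (1 + |t|) ^ (-1 - σ) = 2 / σ := by
    rw [integral_comp_abs (f := fun t : ℝ => (1 + t) ^ (-1 - σ)), hval]
    ring
  refine ⟨?_, hv⟩
  by_contra h
  rw [integral_undef h] at hv
  have : 0 < 2 / σ := by positivity
  linarith

/-- integrals against the test function on the line on the left -/
lemma int_bd {C : ℝ} (hC : 0 < C) {φ : ℝ → ℂ} (hφ : ∀ t, ‖φ t‖ ≤ C * Lg t) {g : ℝ → ℂ} {ε E : ℝ}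
    (hε0 : 0 < ε) (hε1 : ε ≤ 1) (hE : 0 ≤ E)
    (hg : ∀ t, ‖g t‖ ≤ 8 / (1 + |t|) * (E * Real.exp (-(ε ^ 2 * t ^ 2 / 2)))) :
    ‖∫ t, φ t * g t‖ ≤ 192 * Real.exp 2 * C * E * (1 + Real.log (1 / ε)) ^ 2 := by
  have hl : 0 ≤ Real.log (1 / ε) := Real.log_nonneg (by rw [le_div_iff₀ hε0]; linarith)
  set L : ℝ := 1 + Real.log (1 / ε) with hL
  have hL1 : 1 ≤ L := by linarith
  obtain ⟨i1, i2⟩ := tail_int (σ := L⁻¹) (by positivity)
  have h1 := norm_integral_le_of_norm_le (i1.const_mul (96 * Real.exp 2 * C * E * L))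
    (f := fun t => φ t * g t) (Eventually.of_forall fun t => by
      have ht := abs_nonneg t
      have hm := maj hε0 hε1 ht
      rw [sq_abs, ← hL] at hm
      have hLg : Lg t = Real.log (3 + |t|) := rfl
      have hL0 : 0 ≤ Lg t := by linarith [one_le_Lg t]
      rw [norm_mul]
      calc ‖φ t‖ * ‖g t‖ ≤ (C * Lg t) * (8 / (1 + |t|) * (E * Real.exp (-(ε ^ 2 * t ^ 2 / 2)))) :=
            mul_le_mul (hφ t) (hg t) (norm_nonneg _) (by positivity)
        _ = 8 * C * E * (Real.log (3 + |t|) / (1 + |t|) * Real.exp (-(ε ^ 2 * t ^ 2 / 2))) := by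
            rw [hLg]; ring
        _ ≤ 8 * C * E * (12 * Real.exp 2 * L * (1 + |t|) ^ (-1 - L⁻¹)) :=
            mul_le_mul_of_nonneg_left hm (by positivity)
        _ = 96 * Real.exp 2 * C * E * L * (1 + |t|) ^ (-1 - L⁻¹) := by ring)
  refine h1.trans (le_of_eq ?_)
  rw [integral_const_mul, i2, div_inv_eq_mul]
  ring

/-- **PV1a** -/
theorem main (hd : S_PV1d) : S_PV1a := by
  obtain ⟨C1, hC1, b1⟩ := GD_line (x := 1) (by norm_num) (by norm_num)
  obtain ⟨C0, hC0, b0⟩ := GD_line (x := -1) (by norm_num) (by norm_num)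
  have hD0 := H370.D0_nonneg
  have bZ : ∀ t : ℝ, ‖ZZ ⟨1, t⟩‖ ≤ (C1 + H370.D0) * Lg t := by
    intro t
    have hL := one_le_Lg t
    rw [ZZ_one, YL_GD (Rg_one t) (by show (-5 / 2 : ℝ) < 1; norm_num)]
    refine (norm_sub_le _ _).trans ?_
    have h1 := b1 t
    have h2 := H370.norm_DD Lam Lam_norm t
    nlinarith
  refine ⟨192 * Real.exp 2 * (C0 + C1 + H370.D0) * Real.exp 1, by positivity,
    fun T hT2 ε hε0 hε1 y hy => ?_⟩
  have hl : 0 ≤ Real.log (1 / ε) := Real.log_nonneg (by rw [le_div_iff₀ hε0]; linarith)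
  obtain ⟨M, hM, hMd⟩ := hd T hT2 ε hε0 hε1
  obtain ⟨hdec, -⟩ := hMd y
  have hg : ∀ t : ℝ, ‖hT T ε y ⟨-1, t⟩‖ ≤
      8 / (1 + |t|) * ((Real.exp 1 * Real.exp (-y)) * Real.exp (-(ε ^ 2 * t ^ 2 / 2))) :=
    fun t => hT_bd hT2 hε1 hε0 y t
  have hE : 0 ≤ Real.exp 1 * Real.exp (-y) := by positivity
  have hfin : ∀ c : ℝ, 0 < c → c ≤ C0 + C1 + H370.D0 →
      192 * Real.exp 2 * c * (Real.exp 1 * Real.exp (-y)) * (1 + Real.log (1 / ε)) ^ 2 ≤
        192 * Real.exp 2 * (C0 + C1 + H370.D0) * Real.exp 1 * Real.exp (-y) *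
          (1 + Real.log (1 / ε)) ^ 2 := by
    intro c hc hcc
    have h1 : 192 * Real.exp 2 * c * (Real.exp 1 * Real.exp (-y)) ≤
        192 * Real.exp 2 * (C0 + C1 + H370.D0) * (Real.exp 1 * Real.exp (-y)) := by gcongr
    calc 192 * Real.exp 2 * c * (Real.exp 1 * Real.exp (-y)) * (1 + Real.log (1 / ε)) ^ 2 ≤
          192 * Real.exp 2 * (C0 + C1 + H370.D0) * (Real.exp 1 * Real.exp (-y)) *
            (1 + Real.log (1 / ε)) ^ 2 := mul_le_mul_of_nonneg_right h1 (by positivity)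
      _ = _ := by ring
  constructor
  · have e1 : (∫ t : ℝ, YL ⟨1, t⟩ * hT T ε y ⟨1, t⟩) = ∫ t : ℝ, GD ⟨1, t⟩ * hT T ε y ⟨1, t⟩ := by
      refine integral_congr_ae (Eventually.of_forall fun t => ?_)
      show YL ⟨1, t⟩ * hT T ε y ⟨1, t⟩ = GD ⟨1, t⟩ * hT T ε y ⟨1, t⟩
      rw [YL_GD (Rg_one t) (by show (-5 / 2 : ℝ) < 1; norm_num)]
    rw [e1, shift (δ := ε ^ 2 / 2) (by positivity) (by positivity) hdec, add_sub_cancel_left]
    exact (int_bd hC0 b0 hε0 hε1 hE hg).trans (hfin C0 hC0 (by linarith))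
  · have hg' : ∀ t : ℝ, ‖hT T ε y (-⟨1, t⟩)‖ ≤
        8 / (1 + |t|) * ((Real.exp 1 * Real.exp (-y)) * Real.exp (-(ε ^ 2 * t ^ 2 / 2))) := by
      intro t
      have h1 := hg (-t)
      rw [abs_neg, neg_sq] at h1
      have e2 : (-⟨1, t⟩ : ℂ) = ⟨-1, -t⟩ := by apply Complex.ext <;> simp
      rw [e2]
      exact h1
    exact (int_bd (by positivity) bZ hε0 hε1 hE hg').trans (hfin _ (by positivity) (by linarith))

end Pool.Agent.N756.PV
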